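import Pool.Agent.helper23.CO.SpecU

/-!
# Project co (MP_7c3fb3_pr), row ZEX (copy of the zero field version in project cs / cu)
-/

open Finset Filter Topology MeasureTheory

namespace CO

open CU

theorem ZEX_box {d : ℕ} (Λ : Finset (ZSite d)) : ∀ᶠ L : ℕ in atTop, Λ ⊆ zBox L (0 : ZSite d) := by
  have h1 : ∀ᶠ L : ℕ in atTop, ∀ x ∈ Λ, x ∈ zBox L (0 : ZSite d) := by
    rw [Finset.eventually_all]
    intro x _
    have h2 : ∀ᶠ L : ℕ in atTop, ∀ k : Fin d, (x k).natAbs ≤ L := by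
      rw [Filter.eventually_all]
      intro k
      exact eventually_ge_atTop _
    filter_upwards [h2] with L hL
    unfold zBox
    rw [Fintype.mem_piFinset]
    intro k
    have h3 := hL k
    rw [Finset.mem_Icc, Pi.zero_apply]
    constructor
    · omega
    · omega
  filter_upwards [h1] with L hL x hx
  exact hL x hx

theorem ZEX (hZGM : ZGM_stmt) (hZGC : ZGC_stmt) (hZGD : ZGD_stmt) (hZVB : ZVB_stmt) : ZEX_stmt := by
  intro d β h
  set ω : ZConf d := fun _ => true
  choose P hP using fun L : ℕ => hZGM d β h (zBox L (0 : ZSite d)) ω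
  obtain ⟨U, hU⟩ : ∃ U : Ultrafilter ℕ, (U : Filter ℕ) ≤ atTop :=
    ⟨Ultrafilter.of atTop, Ultrafilter.of_le atTop⟩
  obtain ⟨μ, hμ⟩ : ∃ μ : ProbabilityMeasure (ZConf d), Tendsto P U (𝓝 μ) :=
    ⟨(U.map P).lim, (U.map P).le_nhds_lim⟩
  have key : ∀ f : ZConf d → ℝ, Continuous f →
      Tendsto (fun L : ℕ => gam β h (zBox L (0 : ZSite d)) f ω) U
        (𝓝 (∫ σ, f σ ∂(μ : Measure (ZConf d)))) := by
    intro f hf
    have h1 := ProbabilityMeasure.tendsto_iff_forall_integral_tendsto.1 hμ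
      (BoundedContinuousFunction.mkOfCompact ⟨f, hf⟩)
    refine h1.congr (fun L => ?_)
    exact hP L f hf
  refine ⟨(μ : Measure (ZConf d)), ?_⟩
  apply hZGD d β h _ inferInstance
  intro Λ f hf
  have h1 := key (fun ω' => gam β h Λ f ω') (hZGC d β h Λ f hf)
  have h2 := key f hf
  refine tendsto_nhds_unique (h1.congr' ?_) h2
  filter_upwards [hU (ZEX_box Λ)] with L hL
  exact hZVB d β h Λ _ hL f ω

end CO
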