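import Pool.Agent.helper23.CO.SpecU

/-!
# Project co (MP_7c3fb3_pr), row ZGC (copy of the zero field version in project cs / cu)
-/

open Finset Filter Topology MeasureTheory

namespace CO

open CU

theorem ZGC_sg {d : ℕ} (x : ZSite d) : Continuous fun σ : ZConf d => sg (σ x) :=
  (continuous_of_discreteTopology (f := sg)).comp (continuous_apply x)

theorem ZGC_glue {d : ℕ} (Λ : Finset (ZSite d)) (η : {x // x ∈ Λ} → Bool) : Continuous fun ω : ZConf d => glue Λ η ω := by
  refine continuous_pi fun x => ?_
  unfold glue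
  by_cases hx : x ∈ Λ
  · simp only [dif_pos hx]; exact continuous_const
  · simp only [dif_neg hx]; exact continuous_apply x

theorem ZGC_zwt {d : ℕ} (β h : ℝ) (Λ : Finset (ZSite d)) : Continuous fun σ : ZConf d => zwt β h Λ σ := by
  unfold zwt
  refine Real.continuous_exp.comp ((continuous_const.mul ?_).add (continuous_const.mul ?_))
  · exact continuous_finsetSum _ fun e _ => (ZGC_sg _).mul (ZGC_sg _)
  · exact continuous_finsetSum _ fun x _ => ZGC_sg x

theorem ZGC : ZGC_stmt := by
  intro d β h Λ f hf
  unfold gam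
  refine Continuous.div ?_ ?_ ?_
  · exact continuous_finsetSum _ fun η _ => ((ZGC_zwt β h Λ).comp (ZGC_glue Λ η)).mul (hf.comp (ZGC_glue Λ η))
  · exact continuous_finsetSum _ fun η _ => (ZGC_zwt β h Λ).comp (ZGC_glue Λ η)
  · intro ω
    exact (Finset.sum_pos (fun η _ => Real.exp_pos _) univ_nonempty).ne'

end CO
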