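import Pool.Agent.helper23.CO.SpecU

/-!
# Project co (MP_7c3fb3_pr), row ZGM (copy of the zero field version in project cs / cu)
-/

open Finset Filter Topology MeasureTheory

namespace CO

open CU

lemma ZGM_zwt_pos {d : ℕ} (β h : ℝ) (Λ : Finset (ZSite d)) (σ : ZConf d) : 0 < zwt β h Λ σ := by
  unfold zwt; exact Real.exp_pos _

theorem ZGM : ZGM_stmt := by
  intro d β h Λ ω
  let w : ({x // x ∈ Λ} → Bool) → ℝ := fun η => zwt β h Λ (glue Λ η ω)
  let Z : ℝ := ∑ η : {x // x ∈ Λ} → Bool, w η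
  have hw : ∀ η, 0 < w η := fun η => ZGM_zwt_pos β h Λ _
  have hZ : 0 < Z := Finset.sum_pos (fun η _ => hw η) Finset.univ_nonempty
  let μ : Measure (ZConf d) := ∑ η : {x // x ∈ Λ} → Bool,
    ENNReal.ofReal (w η / Z) • Measure.dirac (glue Λ η ω)
  have hμ : IsProbabilityMeasure μ := by
    refine ⟨?_⟩
    have h1 : μ Set.univ = ∑ η : {x // x ∈ Λ} → Bool, ENNReal.ofReal (w η / Z) := by
      simp [μ, Measure.finsetSum_apply]
    rw [h1, ← ENNReal.ofReal_sum_of_nonneg (fun η _ => (div_pos (hw η) hZ).le), ← Finset.sum_div,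
      div_self hZ.ne', ENNReal.ofReal_one]
  refine ⟨⟨μ, hμ⟩, fun f _ => ?_⟩
  have hint : ∀ η : {x // x ∈ Λ} → Bool,
      Integrable f (ENNReal.ofReal (w η / Z) • Measure.dirac (glue Λ η ω)) := fun η =>
    (integrable_dirac (by simp)).smul_measure ENNReal.ofReal_ne_top
  have h2 : ∫ σ, f σ ∂μ = ∑ η : {x // x ∈ Λ} → Bool, (w η / Z) * f (glue Λ η ω) := by
    show ∫ σ, f σ ∂(∑ η : {x // x ∈ Λ} → Bool,
      ENNReal.ofReal (w η / Z) • Measure.dirac (glue Λ η ω)) = _
    rw [integral_finsetSum_measure (fun η _ => hint η)]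
    refine Finset.sum_congr rfl fun η _ => ?_
    rw [integral_smul_measure, integral_dirac, ENNReal.toReal_ofReal (div_pos (hw η) hZ).le, smul_eq_mul]
  show ∫ σ, f σ ∂μ = _
  rw [h2]
  unfold gam
  rw [Finset.sum_div]
  refine Finset.sum_congr rfl fun η _ => ?_
  rw [div_mul_eq_mul_div]

end CO
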