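import Pool.Agent.helper23.CO.SpecU

/-!
# Project co (MP_7c3fb3_pr), row ZVG (copy of the zero field version in project cs / cu)
-/

open Finset Filter Topology MeasureTheory

namespace CO

open CU

section ZVG_sec

variable {d : ℕ}

/-- the cylinder event -/
def ZVG_A (S : Finset (ZSite d)) : Set (ZConf d) := {σ | ∀ x ∈ S, σ x = true}

noncomputable def ZVG_f (S : Finset (ZSite d)) : ZConf d → ℝ := (ZVG_A S).indicator fun _ => 1

lemma ZVG_meas_A (S : Finset (ZSite d)) : MeasurableSet (ZVG_A S) := by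
  have : ZVG_A S = ⋂ x ∈ S, (fun σ : ZConf d => σ x) ⁻¹' {true} := by
    ext σ
    simp [ZVG_A]
  rw [this]
  refine Finset.measurableSet_biInter S fun x _ => ?_
  exact (measurable_pi_apply x) (measurableSet_singleton true)

lemma ZVG_meas_sg (x : ZSite d) : Measurable fun σ : ZConf d => sg (σ x) :=
  (measurable_of_countable sg).comp (measurable_pi_apply x)

lemma ZVG_meas_zwt (β h : ℝ) (Λ : Finset (ZSite d)) : Measurable (zwt β h Λ) := by
  unfold zwt
  refine Real.measurable_exp.comp ?_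
  refine Measurable.add ?_ ?_
  · refine Measurable.const_mul ?_ β
    refine Finset.measurable_sum _ fun e _ => ?_
    exact (ZVG_meas_sg e.1).mul (ZVG_meas_sg (e.1 + zev e.2))
  · refine Measurable.const_mul ?_ h
    exact Finset.measurable_sum _ fun x _ => ZVG_meas_sg x

lemma ZVG_meas_glue (Λ : Finset (ZSite d)) (η : {x // x ∈ Λ} → Bool) : Measurable (glue Λ η) := by
  rw [measurable_pi_iff]
  intro x
  by_cases hx : x ∈ Λ
  · simp only [glue, hx, dif_pos]
    exact measurable_const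
  · simp only [glue, hx, dif_neg, not_false_eq_true]
    exact measurable_pi_apply x

lemma ZVG_meas_gam (β h : ℝ) (Λ : Finset (ZSite d)) {f : ZConf d → ℝ} (hf : Measurable f) :
    Measurable (gam β h Λ f) := by
  unfold gam
  refine Measurable.div ?_ ?_
  · refine Finset.measurable_sum _ fun η _ => ?_
    exact ((ZVG_meas_zwt β h Λ).comp (ZVG_meas_glue Λ η)).mul (hf.comp (ZVG_meas_glue Λ η))
  · refine Finset.measurable_sum _ fun η _ => ?_
    exact (ZVG_meas_zwt β h Λ).comp (ZVG_meas_glue Λ η)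

lemma ZVG_bounds {β h : ℝ} {Λ : Finset (ZSite d)} {A : Set (ZConf d)} (hA : MeasurableSet A) {a b : ℝ}
    (hab : ∀ ω, a ≤ gam β h Λ (A.indicator fun _ => 1) ω ∧ gam β h Λ (A.indicator fun _ => 1) ω ≤ b)
    {μ : Measure (ZConf d)} (hμ : IsGibbs d β h μ) : a ≤ μ.real A ∧ μ.real A ≤ b := by
  have := hμ.1
  have hm : Measurable (gam β h Λ (A.indicator fun _ => 1)) :=
    ZVG_meas_gam β h Λ (measurable_const.indicator hA)
  have hi : Integrable (gam β h Λ (A.indicator fun _ => 1)) μ := by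
    refine Integrable.of_bound hm.aestronglyMeasurable (max |a| |b|) (Filter.Eventually.of_forall fun ω => ?_)
    rw [Real.norm_eq_abs]
    exact abs_le_max_abs_abs (hab ω).1 (hab ω).2
  rw [hμ.2 Λ A hA]
  constructor
  · have := integral_mono (μ := μ) (integrable_const a) hi (fun ω => (hab ω).1)
    simpa using this
  · have := integral_mono (μ := μ) hi (integrable_const b) (fun ω => (hab ω).2)
    simpa using this

lemma ZVG_f_mono (S : Finset (ZSite d)) : Monotone (ZVG_f S) := by
  intro σ σ' h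
  unfold ZVG_f
  by_cases hσ : σ ∈ ZVG_A S
  · have hσ' : σ' ∈ ZVG_A S := by
      intro x hx
      have h1 := h x
      rw [hσ x hx] at h1
      exact top_le_iff.1 h1
    rw [Set.indicator_of_mem hσ, Set.indicator_of_mem hσ']
  · rw [Set.indicator_of_notMem hσ]
    exact Set.indicator_nonneg (fun _ _ => zero_le_one) _

noncomputable def ZVG_F (S : Finset (ZSite d)) (σ : ZConf d) : ℝ :=
  ∑ x ∈ S, (if σ x = true then (1 : ℝ) else 0) - ZVG_f S σ

lemma ZVG_u_le {a b : Bool} (h : a ≤ b) : (if a = true then (1 : ℝ) else 0) ≤ if b = true then (1 : ℝ) else 0 := by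
  cases a <;> cases b
  · exact le_rfl
  · norm_num
  · exact absurd h (by decide)
  · exact le_rfl

lemma ZVG_F_mono (S : Finset (ZSite d)) : Monotone (ZVG_F S) := by
  intro σ σ' h
  unfold ZVG_F
  by_cases hσ' : σ' ∈ ZVG_A S
  · by_cases hσ : σ ∈ ZVG_A S
    · unfold ZVG_f
      rw [Set.indicator_of_mem hσ, Set.indicator_of_mem hσ']
      have := Finset.sum_le_sum (s := S) fun x _ => ZVG_u_le (h x)
      linarith
    · have h0 : ZVG_f S σ = 0 := by unfold ZVG_f; rw [Set.indicator_of_notMem hσ]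
      have h1 : ZVG_f S σ' = 1 := by unfold ZVG_f; rw [Set.indicator_of_mem hσ']
      rw [h0, h1]
      have hex : ∃ x₀ ∈ S, σ x₀ = false := by
        by_contra hcon
        push Not at hcon
        apply hσ
        intro x hx
        simpa using hcon x hx
      obtain ⟨x₀, hx₀, hs⟩ := hex
      classical
      rw [← Finset.add_sum_erase S _ hx₀,
        ← Finset.add_sum_erase S (fun x => if σ' x = true then (1 : ℝ) else 0) hx₀]
      have := Finset.sum_le_sum (s := S.erase x₀) fun x _ => ZVG_u_le (h x)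
      have e1 : (if σ x₀ = true then (1 : ℝ) else 0) = 0 := by rw [hs]; simp
      have e2 : (if σ' x₀ = true then (1 : ℝ) else 0) = 1 := by rw [hσ' x₀ hx₀]; simp
      rw [e1, e2]
      linarith
  · have hσ : σ ∉ ZVG_A S := by
      intro hσ
      apply hσ'
      intro x hx
      have h1 := h x
      rw [hσ x hx] at h1
      exact top_le_iff.1 h1
    unfold ZVG_f
    rw [Set.indicator_of_notMem hσ, Set.indicator_of_notMem hσ']
    have := Finset.sum_le_sum (s := S) fun x _ => ZVG_u_le (h x)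
    linarith

lemma ZVG_Z_pos (β h : ℝ) (Λ : Finset (ZSite d)) (ω : ZConf d) :
    0 < ∑ η : {x // x ∈ Λ} → Bool, zwt β h Λ (glue Λ η ω) :=
  Finset.sum_pos (fun _ _ => Real.exp_pos _) Finset.univ_nonempty

lemma ZVG_lin (β h : ℝ) (Λ S : Finset (ZSite d)) (ω : ZConf d) :
    gam β h Λ (ZVG_F S) ω =
      ∑ x ∈ S, gam β h Λ (fun σ => if σ x = true then (1 : ℝ) else 0) ω - gam β h Λ (ZVG_f S) ω := by
  have hZ := (ZVG_Z_pos β h Λ ω).ne'
  unfold gam ZVG_F
  rw [eq_sub_iff_add_eq, ← add_div, ← Finset.sum_add_distrib, div_eq_iff hZ]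
  have h1 : ∀ η : {x // x ∈ Λ} → Bool,
      zwt β h Λ (glue Λ η ω) * (∑ x ∈ S, (if glue Λ η ω x = true then (1 : ℝ) else 0) - ZVG_f S (glue Λ η ω)) +
        zwt β h Λ (glue Λ η ω) * ZVG_f S (glue Λ η ω) =
      ∑ x ∈ S, zwt β h Λ (glue Λ η ω) * (if glue Λ η ω x = true then (1 : ℝ) else 0) := by
    intro η
    rw [← mul_add, sub_add_cancel, Finset.mul_sum]
  rw [Finset.sum_congr rfl (fun η _ => h1 η), Finset.sum_comm, Finset.sum_mul]
  refine Finset.sum_congr rfl fun x _ => ?_
  rw [div_mul_cancel₀ _ hZ]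

end ZVG_sec

theorem ZVG (hZVA : ZVA_stmt) : ZVG_stmt := by
  intro d β h hβ μ ν hμ hν S Λ
  set a := gam β h Λ (ZVG_f S) (fun _ => false) with ha
  set b := gam β h Λ (ZVG_f S) (fun _ => true) with hb
  have hab : ∀ ω : ZConf d, a ≤ gam β h Λ ((ZVG_A S).indicator fun _ => 1) ω ∧
      gam β h Λ ((ZVG_A S).indicator fun _ => 1) ω ≤ b := by
    intro ω
    constructor
    · exact hZVA d β h hβ Λ _ (ZVG_f_mono S) _ _ (fun x => bot_le)
    · exact hZVA d β h hβ Λ _ (ZVG_f_mono S) _ _ (fun x => le_top)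
  have h1 := ZVG_bounds (ZVG_meas_A S) hab hμ
  have h2 := ZVG_bounds (ZVG_meas_A S) hab hν
  have h3 : b - a ≤ ∑ x ∈ S, (gam β h Λ (fun σ => if σ x = true then (1 : ℝ) else 0) (fun _ => true) -
      gam β h Λ (fun σ => if σ x = true then (1 : ℝ) else 0) (fun _ => false)) := by
    have h4 := hZVA d β h hβ Λ _ (ZVG_F_mono S) (fun _ => false) (fun _ => true) (fun x => bot_le)
    rw [ZVG_lin, ZVG_lin] at h4
    rw [Finset.sum_sub_distrib]
    linarith
  refine le_trans ?_ h3
  change |μ.real (ZVG_A S) - ν.real (ZVG_A S)| ≤ b - a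
  rw [abs_le]
  constructor <;> linarith [h1.1, h1.2, h2.1, h2.2]

end CO
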